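import Pool.Agent.Lib.MP_1707ab_an.Final
import Pool.Agent.Lib.MP_1707ab_an.Local1
import Pool.Agent.Lib.MP_1707ab_an.L2

/-!
MP_1707ab_an, the case `n = 1` of Q1 in full generality: for all closed sets `S = S₁ ∪ S₂` in the
plane such that every point of `S` is interior to `S₁` or to `S₂` relative to `S`,
`A^1(S) = A^1(S₁) + A^1(S₂)`.
-/

set_option autoImplicit false
open Topology

namespace Pool.Agent.Results.MP_1707ab_an.SplitOne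

theorem result :
    ∀ A : Set ℂ → ℕ → Set (ℂ → ℂ),
      (∀ (T : Set ℂ) (n : ℕ) (f : ℂ → ℂ), f ∈ A T n ↔
        (DifferentiableOn ℂ f Tᶜ ∧
          ∀ k ≤ n, ∃ g : ℂ → ℂ, ContinuousOn g (Tᶜ ∪ frontier T) ∧
            Set.EqOn g (iteratedDeriv k f) Tᶜ)) →
      ∀ (S S₁ S₂ : Set ℂ), IsClosed S → IsClosed S₁ → IsClosed S₂ → S = S₁ ∪ S₂ →
        (∀ z ∈ S, (∃ U ∈ 𝓝 z, U ∩ S ⊆ S₁) ∨ (∃ U ∈ 𝓝 z, U ∩ S ⊆ S₂)) →
        ∀ f : ℂ → ℂ, (f ∈ A S 1 ↔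
          ∃ f₁ ∈ A S₁ 1, ∃ f₂ ∈ A S₂ 1, Set.EqOn f (f₁ + f₂) Sᶜ) := by
  intro A hA S S₁ S₂ hS hS₁ hS₂ h hint f
  exact Pool.Agent.Lib.MP_1707ab_an.split_one
    (Pool.Agent.Lib.MP_1707ab_an.specKol (Pool.Agent.Lib.MP_1707ab_an.specWeak
      Pool.Agent.Lib.MP_1707ab_an.specL2)) A hA S S₁ S₂ hS hS₁ hS₂ h hint f

end Pool.Agent.Results.MP_1707ab_an.SplitOne
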